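import Pool.Agent.helper99.IT.Spec

set_option autoImplicit false

namespace Pool.Agent.IT

open Finset Pool.Agent.AT

theorem ADF_two (s : Fin 4 → ℕ) (h : Fin 4 → ℤ) (l : ℕ) (hl : l.Prime) (h5 : 5 ≤ l)
    (hs : ∀ i, ¬ l ∣ s i) : ∃ n : ℕ, ∀ i, ¬ (l : ℤ) ∣ (s i : ℤ) * n + h i := by
  by_contra hcon
  push Not at hcon
  choose f hf using hcon
  obtain ⟨x, hx, y, hy, hxy, he⟩ := Finset.exists_ne_map_eq_of_card_lt_of_maps_to
    (s := Finset.range l) (t := (Finset.univ : Finset (Fin 4)))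
    (by rw [Finset.card_range, Finset.card_univ, Fintype.card_fin]; omega) (f := f)
    (fun _ _ => Finset.mem_univ _)
  have h1 := hf x
  have h2 := hf y
  rw [← he] at h2
  have h3 : (l : ℤ) ∣ (s (f x) : ℤ) * ((x : ℤ) - y) := by
    have := Int.dvd_sub h1 h2
    have e : (s (f x) : ℤ) * x + h (f x) - ((s (f x) : ℤ) * y + h (f x)) = (s (f x) : ℤ) * ((x : ℤ) - y) := by ring
    rwa [e] at this
  rcases (Nat.prime_iff_prime_int.1 hl).dvd_or_dvd h3 with h4 | h4
  · exact hs (f x) (Int.natCast_dvd_natCast.1 h4)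
  · have hx' := Finset.mem_range.1 hx
    have hy' := Finset.mem_range.1 hy
    have h6 : (x : ℤ) - y = 0 := Int.eq_zero_of_abs_lt_dvd h4 (by rw [abs_lt]; omega)
    omega

theorem ADF : ADF_stmt := by
  intro s h h' Q hQ hd hA l hl
  by_cases hlQ : l ∣ Q
  · obtain ⟨n, hn⟩ := hA l hl
    refine ⟨n, fun i hi => hn i ?_⟩
    have h1 : (l : ℤ) ∣ h i - h' i := (Int.natCast_dvd_natCast.2 hlQ).trans (hd i)
    have h2 := Int.dvd_sub hi h1
    have e : (s i : ℤ) * n + h i - (h i - h' i) = (s i : ℤ) * n + h' i := by ring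
    simp only at h2 ⊢
    rwa [e] at h2
  · obtain ⟨h5, hs⟩ := hQ l hl hlQ
    exact ADF_two s h l hl h5 hs

end Pool.Agent.IT
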